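import Pool.Agent.helper64.QF.Spec

set_option autoImplicit false

namespace Pool.Agent.helper64.QF

open Metric MeasureTheory Set Filter Topology
open Pool.Agent.helper37.PR

theorem CNS (hGLU : GLU_stmt) (hEXF : EXF_stmt) (hLIN : LIN_stmt) : CNS_stmt := by
  intro n A m κ C hA N τ hτ H X hHX
  obtain ⟨hHg, v, hL, han, hgl⟩ := hGLU n A m κ C hA N τ hτ H X hHX
  obtain ⟨r₀, K, μ, hr₀, hr1, hK, -, -, -, -, hE⟩ := hEXF n A m κ C hA
  set T : ℝ := N * τ with hT
  have hT0 : 0 ≤ T := by positivity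
  have hfw0 : ∀ x : E n, fw A x 0 = x := fun x => (hLIN n A m κ C hA x 0).1
  have hexp : ∀ (x : E n) (t : ℝ), NormedSpace.exp ((t : ℂ) • A) (fw A x t) = x :=
    fun x => (hLIN n A m κ C hA x 0).2.2.2.2.2.1
  have hadd : ∀ (x : E n) (s t : ℝ), fw A (fw A x s) t = fw A x (s + t) :=
    fun x => (hLIN n A m κ C hA x 0).2.2.2.2.2.2.1
  have hkey : ∀ z ∈ ball (0 : E n) 1, ∀ t : ℝ, T ≤ t →
      NormedSpace.exp ((t : ℂ) • A) (v z t) = fw A (v z T) (-T) := by
    intro z hz t ht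
    have h1 : fw A (v z T) (t - T) = fw A (fw A (v z T) (-T)) t := by
      rw [hadd]
      congr 1
      ring
    rw [hgl z hz t ht, h1, hexp]
  have hlin : ∀ x : E n, fw A x (-T) = (NormedSpace.exp ((-((-T : ℝ) : ℂ)) • A)) x := fun x => rfl
  have hinv : ∀ x : E n, (NormedSpace.exp ((-((-T : ℝ) : ℂ)) • A)) (fw A x T) = x := by
    intro x
    rw [← hlin, hadd, add_neg_cancel, hfw0]
  have h0 : v 0 T = 0 := by
    have h1 := flow_le hHg hL (mem_ball_self (zero_lt_one' ℝ)) hT0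
    rw [norm_zero] at h1
    exact norm_le_zero_iff.mp h1
  refine ⟨hHg, v, fun z => fw A (v z T) (-T), hL, ⟨?_, ?_, ?_, hglue A N τ H, v, hHg, hL, ?_⟩, ?_⟩
  · exact (NormedSpace.exp ((-((-T : ℝ) : ℂ)) • A)).comp_analyticOnNhd (han T hT0)
  · show fw A (v 0 T) (-T) = 0
    rw [h0, hlin, map_zero]
  · apply HasFDerivAt.fderiv
    rw [hasFDerivAt_iff_isLittleO]
    have hf0 : fw A (v 0 T) (-T) = 0 := by
      rw [h0, hlin, map_zero]
    have hbound : ∀ z : E n, ‖z‖ ≤ r₀ → ‖fw A (v z T) (-T) - z‖ ≤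
        (‖NormedSpace.exp ((-((-T : ℝ) : ℂ)) • A)‖ * (K * Real.exp (-(m * T)))) * ‖z‖ ^ 2 := by
      intro z hz
      have h1 := (hE (hglue A N τ H) v hHg hL z hz T hT0).2
      have h2 : fw A (v z T) (-T) - z =
          (NormedSpace.exp ((-((-T : ℝ) : ℂ)) • A)) (v z T - fw A z T) := by
        rw [map_sub, hinv, hlin]
      rw [h2]
      calc ‖(NormedSpace.exp ((-((-T : ℝ) : ℂ)) • A)) (v z T - fw A z T)‖
          ≤ ‖NormedSpace.exp ((-((-T : ℝ) : ℂ)) • A)‖ * ‖v z T - fw A z T‖ :=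
            ContinuousLinearMap.le_opNorm _ _
        _ ≤ ‖NormedSpace.exp ((-((-T : ℝ) : ℂ)) • A)‖ * (K * ‖z‖ ^ 2 * Real.exp (-(m * T))) :=
            mul_le_mul_of_nonneg_left h1 (norm_nonneg _)
        _ = _ := by ring
    rw [Asymptotics.isLittleO_iff]
    intro c hc
    have hev : ∀ᶠ z : E n in 𝓝 0, ‖z‖ < min r₀
        (c / (‖NormedSpace.exp ((-((-T : ℝ) : ℂ)) • A)‖ * (K * Real.exp (-(m * T))) + 1)) := by
      have h1 : (0 : ℝ) < min r₀
        (c / (‖NormedSpace.exp ((-((-T : ℝ) : ℂ)) • A)‖ * (K * Real.exp (-(m * T))) + 1)) := by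
        apply lt_min hr₀
        positivity
      filter_upwards [ball_mem_nhds (0 : E n) h1] with z hz
      rwa [mem_ball_zero_iff] at hz
    filter_upwards [hev] with z hz
    have hz1 := hz.trans_le (min_le_left _ _)
    have hz2 := hz.trans_le (min_le_right _ _)
    rw [lt_div_iff₀ (by positivity)] at hz2
    rw [hf0, sub_zero, sub_zero, ContinuousLinearMap.id_apply]
    refine (hbound z hz1.le).trans ?_
    have h3 : (0 : ℝ) ≤ ‖NormedSpace.exp ((-((-T : ℝ) : ℂ)) • A)‖ * (K * Real.exp (-(m * T))) := by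
      positivity
    nlinarith [norm_nonneg z]
  · apply TendstoUniformlyOn.tendstoLocallyUniformlyOn
    intro u hu
    filter_upwards [eventually_ge_atTop T] with t ht z hz
    rw [hkey z hz t ht]
    exact refl_mem_uniformity hu
  · intro z hz
    refine tendsto_const_nhds.congr' ?_
    filter_upwards [eventually_ge_atTop T] with t ht
    exact (hkey z hz t ht).symm

end Pool.Agent.helper64.QF
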